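import Mathlib
import Pool.Agent.V1118.Graphical
import Pool.Agent.V1118.ParCount

/-!
# A local class counting zeta function of a graphical group with a pole at `37 / 3`
-/

open Filter Topology
open Pool.Agent.V1118 Pool.Agent.V1118.ParCount

namespace Pool.Agent.Results.MP_3df142_al.PoleOneThird

/-- The graph: a `5`-cycle `0, 1, 2, 3, 4`, a vertex `5` adjacent to `2, 3, 6, 7` and a vertex `6`
adjacent to `0, 5, 8`. -/
def G9 : SimpleGraph (Fin 9) :=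
  SimpleGraph.fromRel (fun u v => (u, v) ∈ ([(0, 1), (1, 2), (2, 3), (3, 4), (0, 4), (2, 5),
    (3, 5), (5, 6), (0, 6), (5, 7), (6, 8)] : List (Fin 9 × Fin 9)))

instance : DecidableRel G9.Adj := fun u v => by
  unfold G9 SimpleGraph.fromRel
  infer_instance

lemma card_edges : Nat.card G9.edgeSet = 11 := by
  rw [Nat.card_eq_fintype_card]
  decide +kernel

section upper

variable {p k : ℕ} [hp : Fact p.Prime]

/-- Parents in the first forest. -/
def pr1 : Fin 9 → Option (Fin 9) := ![none, some 0, some 1, some 4, some 0, some 6, some 0, some 5,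
  some 6]

/-- Parents in the second forest. -/
def pr2 : Fin 9 → Option (Fin 9) := ![none, some 0, some 1, some 2, some 3, some 3, some 0, some 5,
  some 6]

/-- Parents in the third forest. -/
def pr3 : Fin 9 → Option (Fin 9) := ![none, some 2, some 3, some 4, some 0, some 2, none, some 5,
  some 6]

lemma good1 : Good pr1 [7, 8, 5, 6, 2, 1, 3, 4, 0] := by
  simp only [Good]
  and_intros
  all_goals decide

lemma good2 : Good pr2 [7, 8, 5, 6, 4, 3, 2, 1, 0] := by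
  simp only [Good]
  and_intros
  all_goals decide

lemma good3 : Good pr3 [7, 8, 6, 5, 1, 2, 3, 4, 0] := by
  simp only [Good]
  and_intros
  all_goals decide

/-- The maps with prescribed orders. -/
noncomputable def Nd (p k : ℕ) [Fact p.Prime] (d : Fin 9 → ℕ) :
    Finset (Fin 9 → ZMod (p ^ k) × ZMod (p ^ k)) := by
  classical
  exact Finset.univ.filter (fun f => (∀ u, addOrderOf (f u) = p ^ (d u)) ∧
    ∀ u v, G9.Adj u v → (f u).1 * (f v).2 = (f v).1 * (f u).2)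

lemma Nd_le (d : Fin 9 → ℕ) (hd : ∀ v, d v ≤ k) (pr : Fin 9 → Option (Fin 9)) (l : List (Fin 9))
    (hl : Good pr l) (hall : ∀ u, u ∈ l) (hadj : ∀ u w, pr u = some w → G9.Adj w u) :
    (Nd p k d).card ≤ p ^ (l.map (ex k d pr)).sum := by
  refine (Finset.card_le_card ?_).trans (card_AA d hd pr l hl)
  intro f hf
  rw [Nd, Finset.mem_filter] at hf
  rw [mem_AA]
  refine ⟨fun u hu => absurd (hall u) hu, fun u _ => hf.2.1 u, ?_⟩
  intro u _ w _ huw
  exact hf.2.2 w u (hadj u w huw)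

lemma Nd_cube (d : Fin 9 → ℕ) (hd : ∀ v, d v ≤ k) : (Nd p k d).card ^ 3 ≤ p ^ (31 * k) := by
  have h1 := Nd_le (p := p) d hd pr1 _ good1 (by decide) (by decide)
  have h2 := Nd_le (p := p) d hd pr2 _ good2 (by decide) (by decide)
  have h3 := Nd_le (p := p) d hd pr3 _ good3 (by decide) (by decide)
  have h4 : (Nd p k d).card ^ 3 ≤ p ^ ((([7, 8, 5, 6, 2, 1, 3, 4, 0] : List (Fin 9)).map
      (ex k d pr1)).sum + (([7, 8, 5, 6, 4, 3, 2, 1, 0] : List (Fin 9)).map (ex k d pr2)).sum +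
      (([7, 8, 6, 5, 1, 2, 3, 4, 0] : List (Fin 9)).map (ex k d pr3)).sum) := by
    rw [pow_add, pow_add, pow_succ, pow_two]
    exact Nat.mul_le_mul (Nat.mul_le_mul h1 h2) h3
  refine h4.trans (Nat.pow_le_pow_right hp.out.pos ?_)
  have e0 := hd 0
  have e1 := hd 1
  have e2 := hd 2
  have e3 := hd 3
  have e4 := hd 4
  have e5 := hd 5
  have e6 := hd 6
  have e7 := hd 7
  have e8 := hd 8
  simp only [List.map_cons, List.map_nil, List.sum_cons, List.sum_nil]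
  have f1 : ex k d pr1 0 = 2 * d 0 ∧ ex k d pr1 1 = d 1 + (k - d 0) ∧
      ex k d pr1 2 = d 2 + (k - d 1) ∧ ex k d pr1 3 = d 3 + (k - d 4) ∧
      ex k d pr1 4 = d 4 + (k - d 0) ∧ ex k d pr1 5 = d 5 + (k - d 6) ∧
      ex k d pr1 6 = d 6 + (k - d 0) ∧ ex k d pr1 7 = d 7 + (k - d 5) ∧
      ex k d pr1 8 = d 8 + (k - d 6) := ⟨rfl, rfl, rfl, rfl, rfl, rfl, rfl, rfl, rfl⟩
  have f2 : ex k d pr2 0 = 2 * d 0 ∧ ex k d pr2 1 = d 1 + (k - d 0) ∧
      ex k d pr2 2 = d 2 + (k - d 1) ∧ ex k d pr2 3 = d 3 + (k - d 2) ∧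
      ex k d pr2 4 = d 4 + (k - d 3) ∧ ex k d pr2 5 = d 5 + (k - d 3) ∧
      ex k d pr2 6 = d 6 + (k - d 0) ∧ ex k d pr2 7 = d 7 + (k - d 5) ∧
      ex k d pr2 8 = d 8 + (k - d 6) := ⟨rfl, rfl, rfl, rfl, rfl, rfl, rfl, rfl, rfl⟩
  have f3 : ex k d pr3 0 = 2 * d 0 ∧ ex k d pr3 1 = d 1 + (k - d 2) ∧
      ex k d pr3 2 = d 2 + (k - d 3) ∧ ex k d pr3 3 = d 3 + (k - d 4) ∧
      ex k d pr3 4 = d 4 + (k - d 0) ∧ ex k d pr3 5 = d 5 + (k - d 2) ∧
      ex k d pr3 6 = 2 * d 6 ∧ ex k d pr3 7 = d 7 + (k - d 5) ∧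
      ex k d pr3 8 = d 8 + (k - d 6) := ⟨rfl, rfl, rfl, rfl, rfl, rfl, rfl, rfl, rfl⟩
  omega

lemma NN_le : (NN G9 (ZMod (p ^ k)) : ℝ) ≤ ((k : ℝ) + 1) ^ 9 * ((p : ℝ) ^ (31 / 3 : ℝ)) ^ k := by
  classical
  have hpos : (0 : ℝ) < p := by exact_mod_cast hp.out.pos
  have h1 : NN G9 (ZMod (p ^ k)) ≤ ∑ d : Fin 9 → Fin (k + 1), (Nd p k (fun v => d v)).card := by
    unfold NN
    rw [Nat.card_eq_fintype_card, Fintype.card_subtype]
    refine (Finset.card_le_card ?_).trans Finset.card_biUnion_le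
    intro f hf
    rw [Finset.mem_filter] at hf
    rw [Finset.mem_biUnion]
    have h2 : ∀ v, ∃ a ≤ k, addOrderOf (f v) = p ^ a := fun v => exists_order (f v)
    choose a ha hfa using h2
    refine ⟨fun v => ⟨a v, Nat.lt_succ_of_le (ha v)⟩, Finset.mem_univ _, ?_⟩
    rw [Nd, Finset.mem_filter]
    exact ⟨Finset.mem_univ _, fun u => hfa u, fun u v huv => hf.2 u v huv⟩
  have h2 : ∀ d : Fin 9 → Fin (k + 1), ((Nd p k (fun v => d v)).card : ℝ) ≤
      ((p : ℝ) ^ (31 / 3 : ℝ)) ^ k := by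
    intro d
    have h3 := Nd_cube (p := p) (k := k) (fun v => d v) (fun v => Nat.lt_succ_iff.1 (d v).2)
    have h4 : ((Nd p k (fun v => d v)).card : ℝ) ^ 3 ≤ (((p : ℝ) ^ (31 / 3 : ℝ)) ^ k) ^ 3 := by
      have h5 : (((p : ℝ) ^ (31 / 3 : ℝ)) ^ k) ^ 3 = (p : ℝ) ^ (31 * k) := by
        rw [← pow_mul, ← Real.rpow_natCast, ← Real.rpow_mul hpos.le, ← Real.rpow_natCast]
        congr 1
        push_cast
        ring
      rw [h5]
      exact_mod_cast h3
    exact le_of_pow_le_pow_left₀ three_ne_zero (by positivity) h4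
  calc (NN G9 (ZMod (p ^ k)) : ℝ) ≤ ∑ d : Fin 9 → Fin (k + 1), ((Nd p k (fun v => d v)).card : ℝ) := by
        exact_mod_cast h1
    _ ≤ ∑ _d : Fin 9 → Fin (k + 1), ((p : ℝ) ^ (31 / 3 : ℝ)) ^ k :=
        Finset.sum_le_sum fun d _ => h2 d
    _ = ((k : ℝ) + 1) ^ 9 * ((p : ℝ) ^ (31 / 3 : ℝ)) ^ k := by
        rw [Finset.sum_const, Finset.card_univ, Fintype.card_fun, Fintype.card_fin,
          Fintype.card_fin, nsmul_eq_mul]
        push_cast
        ring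

end upper

section lower

variable {p l : ℕ} [hp : Fact p.Prime]

/-- The valuations (in units of `l`) used for the lower bound. -/
def ev : Fin 9 → ℕ := ![2, 0, 1, 1, 0, 2, 1, 0, 0]

lemma ev_le (v : Fin 9) : ev v ≤ 2 := by
  revert v
  decide

/-- The slopes used for the lower bound. -/
def tt {R : Type} [CommSemiring R] (P a b c α β : R) : Fin 9 → R :=
  ![a, a, a, a + P * α, a + P * α + P ^ 2 * β, b, c, b, c]

lemma tt_edge {R : Type} [CommRing R] (P a b c α β : R) (hP : P ^ 3 = 0) (u v : Fin 9)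
    (huv : G9.Adj u v) :
    P ^ ev u * P ^ ev v * (tt P a b c α β v - tt P a b c α β u) = 0 := by
  have key : ∀ u v : Fin 9, (u, v) ∈ ([(0, 1), (1, 2), (2, 3), (3, 4), (0, 4), (2, 5),
      (3, 5), (5, 6), (0, 6), (5, 7), (6, 8)] : List (Fin 9 × Fin 9)) →
      P ^ ev u * P ^ ev v * (tt P a b c α β v - tt P a b c α β u) = 0 := by
    intro u v h
    simp only [List.mem_cons, Prod.mk.injEq, List.not_mem_nil, or_false] at h
    rcases h with ⟨rfl, rfl⟩ | ⟨rfl, rfl⟩ | ⟨rfl, rfl⟩ | ⟨rfl, rfl⟩ | ⟨rfl, rfl⟩ | ⟨rfl, rfl⟩ |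
      ⟨rfl, rfl⟩ | ⟨rfl, rfl⟩ | ⟨rfl, rfl⟩ | ⟨rfl, rfl⟩ | ⟨rfl, rfl⟩
    · change P ^ 2 * P ^ 0 * (a - a) = 0
      ring
    · change P ^ 0 * P ^ 1 * (a - a) = 0
      ring
    · change P ^ 1 * P ^ 1 * (a + P * α - a) = 0
      linear_combination α * hP
    · change P ^ 1 * P ^ 0 * (a + P * α + P ^ 2 * β - (a + P * α)) = 0
      linear_combination β * hP
    · change P ^ 2 * P ^ 0 * (a + P * α + P ^ 2 * β - a) = 0
      linear_combination (α + P * β) * hP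
    · change P ^ 1 * P ^ 2 * (b - a) = 0
      linear_combination (b - a) * hP
    · change P ^ 1 * P ^ 2 * (b - (a + P * α)) = 0
      linear_combination (b - (a + P * α)) * hP
    · change P ^ 2 * P ^ 1 * (c - b) = 0
      linear_combination (c - b) * hP
    · change P ^ 2 * P ^ 1 * (c - a) = 0
      linear_combination (c - a) * hP
    · change P ^ 2 * P ^ 0 * (b - b) = 0
      ring
    · change P ^ 1 * P ^ 0 * (c - c) = 0
      ring
  rw [G9, SimpleGraph.fromRel_adj] at huv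
  rcases huv.2 with h | h
  · exact key u v h
  · have := key v u h
    linear_combination -this

/-- The parameters of the solutions used for the lower bound. -/
abbrev Dom (p l : ℕ) : Type :=
  (∀ v : Fin 9, Fin (p ^ (3 * l - l * ev v - 1))) ×
    (Fin (p ^ (3 * l)) × Fin (p ^ (3 * l)) × Fin (p ^ (3 * l))) × Fin (p ^ l) × Fin (p ^ l)

/-- The slope of a solution as a natural number. -/
def tn (x : Dom p l) (v : Fin 9) : ℕ :=
  tt (p ^ l) x.2.1.1.val x.2.1.2.1.val x.2.1.2.2.val x.2.2.1.val x.2.2.2.val v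

/-- The solutions used for the lower bound. -/
def sol (x : Dom p l) (v : Fin 9) : ZMod (p ^ (3 * l)) × ZMod (p ^ (3 * l)) :=
  (((p ^ (l * ev v) * (1 + p * (x.1 v).val) : ℕ) : ZMod (p ^ (3 * l))),
    ((p ^ (l * ev v) * ((1 + p * (x.1 v).val) * tn x v) : ℕ) : ZMod (p ^ (3 * l))))

omit hp in
lemma tn_cast (x : Dom p l) (v : Fin 9) : ((tn x v : ℕ) : ZMod (p ^ (3 * l))) =
    tt ((p : ZMod (p ^ (3 * l))) ^ l) (x.2.1.1.val : ZMod (p ^ (3 * l))) x.2.1.2.1.val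
      x.2.1.2.2.val x.2.2.1.val x.2.2.2.val v := by
  unfold tn
  fin_cases v <;> simp [tt]

omit hp in
lemma sol_par (x : Dom p l) (u v : Fin 9) (huv : G9.Adj u v) :
    par (sol x u) (sol x v) := by
  have hP : ((p : ZMod (p ^ (3 * l))) ^ l) ^ 3 = 0 := by
    rw [← pow_mul, mul_comm l 3, ← Nat.cast_pow, ZMod.natCast_self]
  have h := tt_edge ((p : ZMod (p ^ (3 * l))) ^ l) (x.2.1.1.val : ZMod (p ^ (3 * l)))
    x.2.1.2.1.val x.2.1.2.2.val x.2.2.1.val x.2.2.2.val hP u v huv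
  rw [← tn_cast, ← tn_cast, ← pow_mul, ← pow_mul] at h
  simp only [par, sol]
  push_cast
  linear_combination (1 + (p : ZMod (p ^ (3 * l))) * ((x.1 u).val : ZMod (p ^ (3 * l)))) *
    (1 + (p : ZMod (p ^ (3 * l))) * ((x.1 v).val : ZMod (p ^ (3 * l)))) * h

lemma sol_injective (hl : 1 ≤ l) : Function.Injective (sol (p := p) (l := l)) := by
  have hpos : 0 < p := hp.out.pos
  intro x y hxy
  have h1 : ∀ v, x.1 v = y.1 v := by
    intro v
    have h2 := congrArg Prod.fst (congrFun hxy v)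
    simp only [sol] at h2
    rw [ZMod.natCast_eq_natCast_iff] at h2
    have hev := ev_le v
    have hle : l * ev v + 1 ≤ 3 * l := by nlinarith
    have h3 : p ^ (3 * l) = p ^ (l * ev v) * (p * p ^ (3 * l - l * ev v - 1)) := by
      rw [← pow_succ', ← pow_add]
      congr 1
      omega
    have h2' : Nat.ModEq (p ^ (l * ev v) * (p * p ^ (3 * l - l * ev v - 1)))
        (p ^ (l * ev v) * (1 + p * (x.1 v).val)) (p ^ (l * ev v) * (1 + p * (y.1 v).val)) := by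
      rw [← h3]
      exact h2
    have h4 := Nat.ModEq.mul_left_cancel' (pow_pos hpos _).ne' h2'
    have h5 := Nat.ModEq.add_left_cancel' 1 h4
    have h6 := Nat.ModEq.mul_left_cancel' hpos.ne' h5
    exact Fin.ext (Nat.ModEq.eq_of_lt_of_lt h6 (x.1 v).2 (y.1 v).2)
  have h2 : ∀ v, ev v = 0 → tn x v ≡ tn y v [MOD p ^ (3 * l)] := by
    intro v hv
    have h3 := congrArg Prod.snd (congrFun hxy v)
    simp only [sol] at h3
    have h4 : p ^ (l * ev v) = 1 := by rw [hv, mul_zero, pow_zero]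
    rw [ZMod.natCast_eq_natCast_iff, h4, one_mul, one_mul, h1 v] at h3
    refine Nat.ModEq.cancel_left_of_coprime ?_ h3
    have : Nat.Coprime (p ^ (3 * l)) (1 + p * (y.1 v).val) := by
      refine Nat.Coprime.pow_left _ ?_
      rw [Nat.coprime_add_mul_left_right]
      exact Nat.coprime_one_right p
    exact this
  have h3 : x.2.1.1 = y.2.1.1 := Fin.ext
    (Nat.ModEq.eq_of_lt_of_lt (h2 1 rfl) x.2.1.1.2 y.2.1.1.2)
  have h4 : x.2.1.2.1 = y.2.1.2.1 := Fin.ext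
    (Nat.ModEq.eq_of_lt_of_lt (h2 7 rfl) x.2.1.2.1.2 y.2.1.2.1.2)
  have h5 : x.2.1.2.2 = y.2.1.2.2 := Fin.ext
    (Nat.ModEq.eq_of_lt_of_lt (h2 8 rfl) x.2.1.2.2.2 y.2.1.2.2.2)
  have h6 : x.2.1.1.val + p ^ l * x.2.2.1.val + (p ^ l) ^ 2 * x.2.2.2.val ≡
      y.2.1.1.val + p ^ l * y.2.2.1.val + (p ^ l) ^ 2 * y.2.2.2.val [MOD p ^ (3 * l)] := h2 4 rfl
  rw [h3, add_assoc, add_assoc] at h6
  have h7 := Nat.ModEq.add_left_cancel' _ h6
  have hlt : ∀ z : Dom p l, p ^ l * z.2.2.1.val + (p ^ l) ^ 2 * z.2.2.2.val < p ^ (3 * l) := by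
    intro z
    have e1 := z.2.2.1.2
    have e2 := z.2.2.2.2
    have e3 : (p ^ l) ^ 3 = p ^ (3 * l) := by rw [← pow_mul, mul_comm]
    have hq : 0 < p ^ l := pow_pos hpos l
    have e4 : z.2.2.1.val + 1 ≤ p ^ l := e1
    have e5 : z.2.2.2.val + 1 ≤ p ^ l := e2
    calc p ^ l * z.2.2.1.val + (p ^ l) ^ 2 * z.2.2.2.val
        < p ^ l * p ^ l + (p ^ l) ^ 2 * z.2.2.2.val := by
          have := Nat.mul_lt_mul_of_pos_left e1 hq
          omega
      _ = (p ^ l) ^ 2 * (z.2.2.2.val + 1) := by ring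
      _ ≤ (p ^ l) ^ 2 * p ^ l := Nat.mul_le_mul_left _ e5
      _ = (p ^ l) ^ 3 := by ring
      _ = p ^ (3 * l) := e3
  have h8 := Nat.ModEq.eq_of_lt_of_lt h7 (hlt x) (hlt y)
  have hq : 0 < p ^ l := pow_pos hpos l
  have h9 : p ^ l * (x.2.2.1.val + p ^ l * x.2.2.2.val) =
      p ^ l * (y.2.2.1.val + p ^ l * y.2.2.2.val) := by
    calc _ = p ^ l * x.2.2.1.val + (p ^ l) ^ 2 * x.2.2.2.val := by ring
      _ = p ^ l * y.2.2.1.val + (p ^ l) ^ 2 * y.2.2.2.val := h8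
      _ = _ := by ring
  have h10 := Nat.eq_of_mul_eq_mul_left hq h9
  have h11 : x.2.2.1.val = y.2.2.1.val := by
    have h12 := congrArg (fun z => z % (p ^ l)) h10
    simp only [Nat.add_mul_mod_self_left] at h12
    rwa [Nat.mod_eq_of_lt x.2.2.1.2, Nat.mod_eq_of_lt y.2.2.1.2] at h12
  have h12 : x.2.2.2.val = y.2.2.2.val := by
    rw [h11] at h10
    have h13 := Nat.add_left_cancel h10
    exact Nat.eq_of_mul_eq_mul_left hq h13
  refine Prod.ext (funext h1) (Prod.ext (Prod.ext h3 (Prod.ext h4 h5))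
    (Prod.ext (Fin.ext h11) (Fin.ext h12)))

lemma NN_ge (hl : 1 ≤ l) : p ^ (31 * l - 9) ≤ NN G9 (ZMod (p ^ (3 * l))) := by
  have h1 : Nat.card (Dom p l) ≤ NN G9 (ZMod (p ^ (3 * l))) := by
    unfold NN
    refine Nat.card_le_card_of_injective
      (fun x : Dom p l => (⟨sol x, fun u v huv => sol_par x u v huv⟩ :
        {f : Fin 9 → ZMod (p ^ (3 * l)) × ZMod (p ^ (3 * l)) //
          ∀ u v, G9.Adj u v → par (f u) (f v)})) ?_
    intro x y hxy
    exact sol_injective hl (congrArg Subtype.val hxy)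
  refine le_trans (le_of_eq ?_) h1
  rw [Nat.card_eq_fintype_card, Fintype.card_prod, Fintype.card_prod, Fintype.card_prod,
    Fintype.card_prod, Fintype.card_prod, Fintype.card_pi]
  simp only [Fintype.card_fin]
  rw [Finset.prod_pow_eq_pow_sum, ← pow_add, ← pow_add, ← pow_add, ← pow_add, ← pow_add]
  congr 1
  have h2 : ∑ v : Fin 9, (3 * l - l * ev v - 1) = 20 * l - 9 := by
    simp only [Fin.sum_univ_succ, Fin.sum_univ_zero]
    change (3 * l - l * 2 - 1) + ((3 * l - l * 0 - 1) + ((3 * l - l * 1 - 1) +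
      ((3 * l - l * 1 - 1) + ((3 * l - l * 0 - 1) + ((3 * l - l * 2 - 1) + ((3 * l - l * 1 - 1) +
      ((3 * l - l * 0 - 1) + ((3 * l - l * 0 - 1) + 0)))))))) = 20 * l - 9
    omega
  rw [h2]
  omega

end lower

/-! ### The zeta function -/

section zeta

/-- The coefficient `k (G_Γ (O / P ^ k))`. -/
noncomputable def coeff {V : Type} [LinearOrder V] (Γ : SimpleGraph V) (O : Type) [CommRing O]
    [IsLocalRing O] (k : ℕ) : ℕ :=
  Nat.card (ConjClasses (GG Γ (O ⧸ (IsLocalRing.maximalIdeal O) ^ k)))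

/-- The terms `k (G_Γ (O / P ^ k)) q ^ (-k s)` of the class counting zeta function. -/
noncomputable def zetaTerm {V : Type} [LinearOrder V] (Γ : SimpleGraph V) (O : Type) [CommRing O]
    [IsLocalRing O] (s : ℂ) (k : ℕ) : ℂ :=
  (coeff Γ O k : ℂ) * (Nat.card (IsLocalRing.ResidueField O) : ℂ) ^ (-((k : ℂ) * s))

/-- `F` is a meromorphic continuation of the class counting zeta function. -/
def IsContinuation {V : Type} [LinearOrder V] (Γ : SimpleGraph V) (O : Type) [CommRing O]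
    [IsLocalRing O] (F : ℂ → ℂ) : Prop :=
  (∀ s, MeromorphicAt F s) ∧ ∀ s, Summable (zetaTerm Γ O s) → F s = ∑' k, zetaTerm Γ O s k

variable {p : ℕ} [hp : Fact p.Prime]

lemma maximalIdeal_pow (k : ℕ) : (IsLocalRing.maximalIdeal ℤ_[p]) ^ k =
    RingHom.ker (PadicInt.toZModPow (p := p) k) := by
  rw [PadicInt.ker_toZModPow, PadicInt.maximalIdeal_eq_span_p, Ideal.span_singleton_pow]

/-- `ℤ_p / P ^ k ≃ ℤ / p ^ k`. -/
noncomputable def quotEquiv (k : ℕ) :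
    (ℤ_[p] ⧸ (IsLocalRing.maximalIdeal ℤ_[p]) ^ k) ≃+* ZMod (p ^ k) :=
  (Ideal.quotEquivOfEq (maximalIdeal_pow k)).trans
    (RingHom.quotientKerEquivOfSurjective (ZMod.ringHom_surjective (PadicInt.toZModPow k)))

lemma coeff_eq (k : ℕ) : coeff G9 ℤ_[p] k = p ^ (2 * k) * NN G9 (ZMod (p ^ k)) := by
  have hfin : Finite (ℤ_[p] ⧸ (IsLocalRing.maximalIdeal ℤ_[p]) ^ k) :=
    Finite.of_equiv _ (quotEquiv k).symm.toEquiv
  have h1 := card_conj G9 (ℤ_[p] ⧸ (IsLocalRing.maximalIdeal ℤ_[p]) ^ k)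
  rw [card_edges, Nat.card_fin, Nat.card_congr (quotEquiv k).toEquiv, Nat.card_zmod,
    NN_congr G9 (quotEquiv k)] at h1
  have hpos : 0 < p := hp.out.pos
  have h2 : 0 < (p ^ k) ^ 9 := by positivity
  refine Nat.eq_of_mul_eq_mul_right h2 ?_
  have h3 : coeff G9 ℤ_[p] k =
      Nat.card (ConjClasses (GG G9 (ℤ_[p] ⧸ (IsLocalRing.maximalIdeal ℤ_[p]) ^ k))) := rfl
  rw [h3, h1]
  ring

lemma card_residue : Nat.card (IsLocalRing.ResidueField ℤ_[p]) = p := by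
  rw [Nat.card_congr (PadicInt.residueField (p := p)).toEquiv, Nat.card_zmod]

/-- The real terms. -/
noncomputable def rt (p : ℕ) [Fact p.Prime] (σ : ℝ) (k : ℕ) : ℝ :=
  (coeff G9 ℤ_[p] k : ℝ) * (p : ℝ) ^ (-((k : ℝ) * σ))

lemma rt_nonneg (σ : ℝ) (k : ℕ) : 0 ≤ rt p σ k := by
  unfold rt
  positivity

lemma norm_term (s : ℂ) (k : ℕ) : ‖zetaTerm G9 ℤ_[p] s k‖ = rt p s.re k := by
  unfold zetaTerm rt
  rw [card_residue, norm_mul, Complex.norm_natCast, Complex.norm_natCast_cpow_of_pos hp.out.pos]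
  congr 2
  simp

lemma term_real (σ : ℝ) (k : ℕ) : zetaTerm G9 ℤ_[p] (σ : ℂ) k = ((rt p σ k : ℝ) : ℂ) := by
  unfold zetaTerm rt
  have hpos : (0 : ℝ) < p := by exact_mod_cast hp.out.pos
  rw [card_residue]
  push_cast
  rw [Complex.ofReal_cpow hpos.le]
  push_cast
  rfl

lemma rt_le (σ : ℝ) (k : ℕ) :
    rt p σ k ≤ ((k : ℝ) + 1) ^ 9 * ((p : ℝ) ^ (37 / 3 - σ : ℝ)) ^ k := by
  have hpos : (0 : ℝ) < p := by exact_mod_cast hp.out.pos
  unfold rt
  rw [coeff_eq]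
  push_cast
  have h1 := NN_le (p := p) (k := k)
  have h2 : (p : ℝ) ^ (-((k : ℝ) * σ)) = ((p : ℝ) ^ (-σ)) ^ k := by
    rw [← Real.rpow_natCast, ← Real.rpow_mul hpos.le]
    congr 1
    ring
  have h3 : (p : ℝ) ^ (37 / 3 - σ : ℝ) = (p : ℝ) ^ 2 * (p : ℝ) ^ (31 / 3 : ℝ) * (p : ℝ) ^ (-σ) := by
    rw [← Real.rpow_natCast, ← Real.rpow_add hpos, ← Real.rpow_add hpos]
    congr 1
    push_cast
    ring
  rw [h2, h3, mul_pow, mul_pow, ← pow_mul]
  calc (p : ℝ) ^ (2 * k) * (NN G9 (ZMod (p ^ k)) : ℝ) * ((p : ℝ) ^ (-σ)) ^ k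
      ≤ (p : ℝ) ^ (2 * k) * (((k : ℝ) + 1) ^ 9 * ((p : ℝ) ^ (31 / 3 : ℝ)) ^ k) *
        ((p : ℝ) ^ (-σ)) ^ k := by gcongr
    _ = _ := by ring

lemma rt_ge (l : ℕ) (hl : 1 ≤ l) : (p : ℝ) ^ (-(9 : ℝ)) ≤ rt p (37 / 3) (3 * l) := by
  have hpos : (0 : ℝ) < p := by exact_mod_cast hp.out.pos
  unfold rt
  rw [coeff_eq]
  have h1 : (p : ℝ) ^ (31 * l - 9) ≤ (NN G9 (ZMod (p ^ (3 * l))) : ℝ) := by
    exact_mod_cast NN_ge (p := p) hl
  have h2 : (p : ℝ) ^ (31 * l - 9) = (p : ℝ) ^ ((31 * l : ℝ) - 9) := by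
    rw [← Real.rpow_natCast]
    congr 1
    rw [Nat.cast_sub (by omega)]
    push_cast
    ring
  push_cast
  calc (p : ℝ) ^ (-(9 : ℝ)) = (p : ℝ) ^ (2 * (3 * l)) * (p : ℝ) ^ ((31 * l : ℝ) - 9) *
      (p : ℝ) ^ (-(3 * (l : ℝ) * (37 / 3))) := by
        rw [← Real.rpow_natCast, ← Real.rpow_add hpos, ← Real.rpow_add hpos]
        congr 1
        push_cast
        ring
    _ ≤ (p : ℝ) ^ (2 * (3 * l)) * (NN G9 (ZMod (p ^ (3 * l))) : ℝ) *
      (p : ℝ) ^ (-(3 * (l : ℝ) * (37 / 3))) := by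
        rw [← h2]
        gcongr

lemma rt_summable {σ : ℝ} (hσ : 37 / 3 < σ) : Summable (rt p σ) := by
  have hpos : (0 : ℝ) < p := by exact_mod_cast hp.out.pos
  have h1p : (1 : ℝ) < p := by exact_mod_cast hp.out.one_lt
  obtain ⟨r, hr⟩ : ∃ r, r = (p : ℝ) ^ (37 / 3 - σ : ℝ) := ⟨_, rfl⟩
  have hr0 : 0 < r := by rw [hr]; positivity
  have hr1 : r < 1 := by
    rw [hr]
    exact Real.rpow_lt_one_of_one_lt_of_neg h1p (by linarith)
  have h1 : Summable (fun n : ℕ => ((n : ℝ)) ^ 9 * r ^ n) :=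
    summable_pow_mul_geometric_of_norm_lt_one 9 (by rw [Real.norm_of_nonneg hr0.le]; exact hr1)
  have h2 := (summable_nat_add_iff 1).2 h1
  have h3 := h2.mul_left (1 / r)
  refine Summable.of_nonneg_of_le (rt_nonneg σ) (fun k => ?_) h3
  refine (rt_le σ k).trans (le_of_eq ?_)
  rw [← hr]
  push_cast
  rw [pow_succ r k]
  field_simp

lemma rt_tendsto : Tendsto (fun σ : ℝ => ∑' k, rt p σ k) (𝓝[>] (37 / 3 : ℝ)) atTop := by
  have hpos : (0 : ℝ) < p := by exact_mod_cast hp.out.pos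
  rw [tendsto_atTop]
  intro M
  obtain ⟨c, hc⟩ : ∃ c, c = (p : ℝ) ^ (-(9 : ℝ)) := ⟨_, rfl⟩
  have hc0 : 0 < c := by rw [hc]; positivity
  obtain ⟨L, hL⟩ := exists_nat_gt ((M + 1) / c)
  have hL2 : M + 1 < L * c := by rwa [div_lt_iff₀ hc0] at hL
  obtain ⟨T, hT⟩ : ∃ T : Finset ℕ, T = (Finset.range L).image (fun j => 3 * (j + 1)) := ⟨_, rfl⟩
  have hcont : Continuous (fun σ : ℝ => ∑ k ∈ T, rt p σ k) := by
    unfold rt
    refine continuous_finsetSum _ fun k _ => ?_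
    refine continuous_const.mul ?_
    exact Continuous.rpow continuous_const (by fun_prop) (fun _ => Or.inl hpos.ne')
  have hval : M + 1 < ∑ k ∈ T, rt p (37 / 3) k := by
    refine hL2.trans_le ?_
    rw [hT, Finset.sum_image (by
      intro a _ b _ hab
      simp only at hab
      omega)]
    calc (L : ℝ) * c = ∑ _j ∈ Finset.range L, c := by simp
      _ ≤ ∑ j ∈ Finset.range L, rt p (37 / 3) (3 * (j + 1)) := by
          refine Finset.sum_le_sum fun j _ => ?_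
          rw [hc]
          exact rt_ge (j + 1) (by omega)
  have hev : ∀ᶠ σ in 𝓝[>] (37 / 3 : ℝ), M < ∑ k ∈ T, rt p σ k := by
    have h1 : ∀ᶠ σ in 𝓝 (37 / 3 : ℝ), M < ∑ k ∈ T, rt p σ k :=
      (hcont.tendsto (37 / 3)).eventually (lt_mem_nhds (by linarith))
    exact h1.filter_mono nhdsWithin_le_nhds
  filter_upwards [hev, self_mem_nhdsWithin] with σ hσ hσ2
  refine hσ.le.trans ?_
  exact (rt_summable hσ2).sum_le_tsum T fun k _ => rt_nonneg σ k

lemma tsum_real {σ : ℝ} : ∑' k, zetaTerm G9 ℤ_[p] (σ : ℂ) k = ((∑' k, rt p σ k : ℝ) : ℂ) := by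
  rw [Complex.ofReal_tsum]
  exact tsum_congr fun k => term_real σ k

lemma summable_term {s : ℂ} (hs : 37 / 3 < s.re) : Summable (zetaTerm G9 ℤ_[p] s) := by
  refine Summable.of_norm ?_
  refine (rt_summable (p := p) hs).congr fun k => ?_
  rw [norm_term]

/-- **A pole with real part `37 / 3`.** -/
theorem result (p : ℕ) [Fact p.Prime] :
    (∀ s : ℂ, 37 / 3 < s.re → Summable (zetaTerm G9 ℤ_[p] s)) ∧
    Tendsto (fun σ : ℝ => ‖∑' k, zetaTerm G9 ℤ_[p] (σ : ℂ) k‖) (𝓝[>] (37 / 3 : ℝ)) atTop ∧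
    (∀ F : ℂ → ℂ, IsContinuation G9 ℤ_[p] F → meromorphicOrderAt F (37 / 3) < 0) ∧
    ∀ z : ℤ, (37 / 3 : ℂ).re ≠ (z : ℝ) / 2 := by
  have hnorm : Tendsto (fun σ : ℝ => ‖∑' k, zetaTerm G9 ℤ_[p] (σ : ℂ) k‖) (𝓝[>] (37 / 3 : ℝ))
      atTop := by
    refine (rt_tendsto (p := p)).congr' ?_
    filter_upwards with σ
    rw [tsum_real, Complex.norm_real, Real.norm_of_nonneg (tsum_nonneg fun k => rt_nonneg (p := p) σ k)]
  refine ⟨fun s hs => summable_term hs, hnorm, ?_, ?_⟩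
  · rintro F ⟨hF1, hF2⟩
    by_contra hcon
    have h0 := not_lt.1 hcon
    obtain ⟨c, hc⟩ := (tendsto_nhds_iff_meromorphicOrderAt_nonneg (hF1 (37 / 3))).2 h0
    have hmap : Tendsto (fun σ : ℝ => (σ : ℂ)) (𝓝[>] (37 / 3 : ℝ)) (𝓝[≠] (37 / 3 : ℂ)) := by
      rw [tendsto_nhdsWithin_iff]
      constructor
      · have h1 : Tendsto (fun σ : ℝ => (σ : ℂ)) (𝓝 (37 / 3 : ℝ)) (𝓝 ((37 / 3 : ℝ) : ℂ)) :=
          Complex.continuous_ofReal.tendsto _
        have h2 : ((37 / 3 : ℝ) : ℂ) = 37 / 3 := by push_cast; rfl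
        rw [h2] at h1
        exact h1.mono_left nhdsWithin_le_nhds
      · filter_upwards [self_mem_nhdsWithin] with σ hσ h
        have h3 : (σ : ℂ) = ((37 / 3 : ℝ) : ℂ) := by
          push_cast
          exact h
        have h4 : σ = 37 / 3 := by exact_mod_cast h3
        exact (ne_of_gt hσ) h4
    have h1 := (hc.comp hmap).norm
    have h2 : Tendsto (fun σ : ℝ => ‖∑' k, zetaTerm G9 ℤ_[p] (σ : ℂ) k‖) (𝓝[>] (37 / 3 : ℝ))
        (𝓝 ‖c‖) := by
      refine h1.congr' ?_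
      filter_upwards [self_mem_nhdsWithin] with σ hσ
      simp only [Function.comp]
      rw [hF2 _ (summable_term (by rw [Complex.ofReal_re]; exact hσ))]
    exact not_tendsto_nhds_of_tendsto_atTop hnorm _ h2
  · intro z hz
    have h1 : (37 / 3 : ℂ).re = 37 / 3 := by
      have h2 : (37 / 3 : ℂ) = ((37 / 3 : ℝ) : ℂ) := by push_cast; rfl
      rw [h2, Complex.ofReal_re]
    rw [h1] at hz
    have h3 : (74 : ℝ) = 3 * z := by linarith
    have h4 : (74 : ℤ) = 3 * z := by exact_mod_cast h3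
    omega

end zeta

end Pool.Agent.Results.MP_3df142_al.PoleOneThird
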